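import Mathlib

/-!
Generic extension of an algebraically independent family of reals.
-/

namespace Run7.h316

open Cardinal

/-- over a countable field of reals there are arbitrarily large finite
algebraically independent families of reals -/
lemma exists_algebraicIndependent (K : Type) [Field K] [Countable K] [Algebra K ℝ]
    (V : Type*) [Finite V] : ∃ h : V → ℝ, AlgebraicIndependent K h := by
  obtain ⟨ι, x, hx⟩ := exists_isTranscendenceBasis' K ℝ
  have hinf : Infinite ι := by
    by_contra hfin
    rw [not_infinite_iff_finite] at hfin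
    have hK : #K ≤ ℵ₀ := mk_le_aleph0
    rcases isEmpty_or_nonempty ι with he | hne
    · have halg : Algebra.IsAlgebraic K ℝ := hx.isEmpty_iff_isAlgebraic.mp he
      have h1 : {x : ℝ | IsAlgebraic K x} = Set.univ := by
        ext y; simp [halg.isAlgebraic y]
      have h2 := Algebraic.countable K ℝ
      rw [h1] at h2
      exact not_countable_real h2
    · have h1 := hx.lift_cardinalMk_eq_max_lift
      have h2 : #ι < ℵ₀ := lt_aleph0_of_finite ι
      simp only [lift_id] at h1
      have h3 : #ℝ = 𝔠 := mk_real
      rw [h3] at h1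
      have h4 : (#K ⊔ #ι ⊔ ℵ₀ : Cardinal) ≤ ℵ₀ := by
        simp [hK, h2.le]
      rw [← h1] at h4
      exact absurd aleph0_lt_continuum (not_lt.mpr h4)
  obtain ⟨n, ⟨e⟩⟩ := Finite.exists_equiv_fin V
  let f : V → ι := fun v => Infinite.natEmbedding ι (e v).val
  have hf : Function.Injective f := by
    intro a b hab
    have := (Infinite.natEmbedding ι).injective hab
    exact e.injective (Fin.ext this)
  exact ⟨x ∘ f, hx.1.comp f hf⟩

/-- generic extension, moreover avoiding a given hyperplane -/
lemma exists_generic_extension {V : Type*} [Fintype V] {ι : Type*} [Finite ι] (p : ι → ℝ)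
    (hp : AlgebraicIndependent ℚ p) (z : V → ℝ) :
    ∃ h : V → ℝ, AlgebraicIndependent ℚ (Sum.elim h p) ∧ (∑ x, z x * h x = 0 → z = 0) := by
  let s : Set ℝ := Set.range p ∪ Set.range z
  have hs : s.Countable := (Set.countable_range p).union (Set.countable_range z)
  let K := IntermediateField.adjoin ℚ s
  have hK : Countable K := by
    rw [← Cardinal.mk_le_aleph0_iff]
    refine (IntermediateField.cardinalMk_adjoin_le ℚ s).trans ?_
    have : #s ≤ ℵ₀ := by
      rw [Cardinal.mk_le_aleph0_iff]; exact hs.to_subtype
    simp [this]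
  obtain ⟨h, hh⟩ := exists_algebraicIndependent K V
  refine ⟨h, ?_, ?_⟩
  · refine hp.sumElim_of_tower (S := K) ?_ hh
    rintro _ ⟨i, rfl⟩
    exact ⟨⟨p i, IntermediateField.subset_adjoin ℚ s (Or.inl ⟨i, rfl⟩)⟩, rfl⟩
  · intro hz
    have hli : LinearIndependent K h := hh.linearIndependent
    let z' : V → K := fun x => ⟨z x, IntermediateField.subset_adjoin ℚ s (Or.inr ⟨x, rfl⟩)⟩
    have h1 := Fintype.linearIndependent_iff.mp hli z' (by
      rw [← hz]
      refine Finset.sum_congr rfl fun x _ => ?_
      rfl)
    funext x
    have := congrArg (fun k : K => (k : ℝ)) (h1 x)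
    exact this

end Run7.h316
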