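import Mathlib

/-!
Derivations of `ℝ` over `ℚ` with prescribed values on an algebraically independent family.
-/

namespace Run7.h316

open MvPolynomial IntermediateField

open scoped IntermediateField.algebraAdjoinAdjoin in
/-- `ℝ` is formally smooth over the polynomial ring generated by a transcendence basis. -/
lemma formallySmooth_adjoin {B : Type*} {x : B → ℝ} (hx : IsTranscendenceBasis ℚ x) :
    Algebra.FormallySmooth (Algebra.adjoin ℚ (Set.range x)) ℝ := by
  have h1 : Algebra.FormallySmooth (Algebra.adjoin ℚ (Set.range x))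
      (IntermediateField.adjoin ℚ (Set.range x)) :=
    .of_isLocalization (nonZeroDivisors _)
  have h2 : Algebra.IsAlgebraic (IntermediateField.adjoin ℚ (Set.range x)) ℝ :=
    hx.isAlgebraic_field
  have h3 : Algebra.FormallyEtale (IntermediateField.adjoin ℚ (Set.range x)) ℝ :=
    Algebra.FormallyEtale.of_isSeparable _ ℝ
  exact .comp _ (IntermediateField.adjoin ℚ (Set.range x)) _

/-- Derivations of `ℝ` with prescribed values on a transcendence basis. -/
lemma exists_derivation_of_basis {B : Type*} {x : B → ℝ} (hx : IsTranscendenceBasis ℚ x)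
    (c : B → ℝ) :
    ∃ D : ℝ → ℝ, (∀ a b, D (a + b) = D a + D b) ∧ (∀ a b, D (a * b) = a * D b + b * D a) ∧
      ∀ i, D (x i) = c i := by
  have hfs := formallySmooth_adjoin hx
  let A0 := Algebra.adjoin ℚ (Set.range x)
  let e : MvPolynomial B ℚ ≃ₐ[ℚ] A0 := hx.1.aevalEquiv
  let φ0 : MvPolynomial B ℚ →ₐ[ℚ] TrivSqZeroExt ℝ ℝ :=
    MvPolynomial.aeval (fun b => TrivSqZeroExt.inl (x b) + TrivSqZeroExt.inr (c b))
  let φ : A0 →ₐ[ℚ] TrivSqZeroExt ℝ ℝ := φ0.comp e.symm.toAlgHom
  let _ : Algebra A0 (TrivSqZeroExt ℝ ℝ) := φ.toRingHom.toAlgebra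
  have hfst : ∀ P : MvPolynomial B ℚ, (φ0 P).fst = MvPolynomial.aeval x P := by
    intro P
    have : ((TrivSqZeroExt.fstHom ℚ ℝ ℝ).comp φ0) = MvPolynomial.aeval x := by
      apply MvPolynomial.algHom_ext
      intro i
      simp [φ0]
    have h := DFunLike.congr_fun this P
    simpa using h
  have he : ∀ a : A0, MvPolynomial.aeval x (e.symm a) = (a : ℝ) := by
    intro a
    have := hx.1.algebraMap_aevalEquiv (e.symm a)
    rw [← this]
    simp [e]
  let g : TrivSqZeroExt ℝ ℝ →ₐ[A0] ℝ :=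
    { (TrivSqZeroExt.fstHom ℚ ℝ ℝ).toRingHom with
      commutes' := by
        intro a
        change (φ a).fst = (a : ℝ)
        change (φ0 (e.symm a)).fst = (a : ℝ)
        rw [hfst, he] }
  have hg : Function.Surjective g := by
    intro r
    exact ⟨TrivSqZeroExt.inl r, by simp [g]⟩
  have hg' : IsNilpotent (RingHom.ker (g : TrivSqZeroExt ℝ ℝ →+* ℝ)) := by
    refine ⟨2, ?_⟩
    rw [Ideal.zero_eq_bot, eq_bot_iff]
    have hsq : RingHom.ker (g : TrivSqZeroExt ℝ ℝ →+* ℝ) ^ 2
        = RingHom.ker (g : TrivSqZeroExt ℝ ℝ →+* ℝ) * RingHom.ker (g : TrivSqZeroExt ℝ ℝ →+* ℝ) := by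
      exact sq _
    rw [hsq, Ideal.mul_le]
    intro r hr s hs
    have hr' : r.fst = 0 := hr
    have hs' : s.fst = 0 := hs
    rw [Ideal.mem_bot]
    ext
    · simp [hr', hs']
    · simp [hr', hs']
  let ψ : ℝ →ₐ[A0] TrivSqZeroExt ℝ ℝ :=
    Algebra.FormallySmooth.liftOfSurjective (AlgHom.id A0 ℝ) g hg hg'
  have hψ : ∀ r, (ψ r).fst = r := by
    intro r
    have := Algebra.FormallySmooth.liftOfSurjective_apply (AlgHom.id A0 ℝ) g hg hg' r
    exact this
  refine ⟨fun r => (ψ r).snd, ?_, ?_, ?_⟩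
  · intro a b; simp
  · intro a b
    simp only [map_mul, TrivSqZeroExt.snd_mul, hψ]
    simp [mul_comm]
  · intro i
    have hxi : x i ∈ A0 := Algebra.subset_adjoin ⟨i, rfl⟩
    have h1 : ψ (x i) = φ ⟨x i, hxi⟩ := by
      have := ψ.commutes ⟨x i, hxi⟩
      exact this
    have h2 : e.symm ⟨x i, hxi⟩ = X i := by
      rw [AlgEquiv.symm_apply_eq]
      apply Subtype.ext
      have := hx.1.algebraMap_aevalEquiv (X i)
      simp only [aeval_X] at this
      exact this.symm
    have h3 : φ ⟨x i, hxi⟩ = TrivSqZeroExt.inl (x i) + TrivSqZeroExt.inr (c i) := by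
      change φ0 (e.symm ⟨x i, hxi⟩) = _
      rw [h2]; simp [φ0]
    simp only [h1, h3]
    simp

/-- Derivations of `ℝ` with prescribed values on an algebraically independent family. -/
lemma exists_derivation {ι : Type*} {x : ι → ℝ} (hx : AlgebraicIndependent ℚ x)
    (c : ι → ℝ) :
    ∃ D : ℝ → ℝ, (∀ a b, D (a + b) = D a + D b) ∧ (∀ a b, D (a * b) = a * D b + b * D a) ∧
      ∀ i, D (x i) = c i := by
  classical
  have hinj : Function.Injective x := hx.injective
  have hs : AlgebraicIndepOn ℚ id (Set.range x) := hx.coe_range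
  obtain ⟨t, hst, ht⟩ := exists_isTranscendenceBasis_superset hs
  obtain ⟨D, h1, h2, h3⟩ := exists_derivation_of_basis ht
    (fun b => if h : ∃ i, x i = b.1 then c h.choose else 0)
  refine ⟨D, h1, h2, fun i => ?_⟩
  have hi : x i ∈ t := hst ⟨i, rfl⟩
  have := h3 ⟨x i, hi⟩
  rw [this]
  have hex : ∃ j, x j = x i := ⟨i, rfl⟩
  rw [dif_pos hex, hinj hex.choose_spec]

end Run7.h316
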