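import Mathlib

/-!
A matrix with polynomial entries over `ℚ` has maximal rank at algebraically independent reals.
-/

namespace Run7.h316

open MvPolynomial

/-- The rank of a polynomial matrix at a generic point is at least its rank at any point. -/
lemma rank_le_of_generic {ι m n : Type*} [Fintype m] [Fintype n]
    (M : Matrix m n (MvPolynomial ι ℚ)) {p : ι → ℝ} (q : ι → ℝ)
    (hp : AlgebraicIndependent ℚ p) :
    (M.map (aeval q : MvPolynomial ι ℚ →ₐ[ℚ] ℝ)).rank ≤
      (M.map (aeval p : MvPolynomial ι ℚ →ₐ[ℚ] ℝ)).rank := by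
  classical
  set A := M.map (aeval q : MvPolynomial ι ℚ →ₐ[ℚ] ℝ) with hA
  set B := M.map (aeval p : MvPolynomial ι ℚ →ₐ[ℚ] ℝ) with hB
  have hr : A.rank = Module.finrank ℝ (Submodule.span ℝ (Set.range A.row)) :=
    A.rank_eq_finrank_span_row
  obtain ⟨f, hf, -, hli⟩ := Submodule.exists_fun_fin_finrank_span_eq ℝ (Set.range A.row)
  choose g hg using hf
  -- the selected rows
  let N : Matrix (Fin (Module.finrank ℝ (Submodule.span ℝ (Set.range A.row)))) n
      (MvPolynomial ι ℚ) := M.submatrix g id
  have hNq : N.map (aeval q : MvPolynomial ι ℚ →ₐ[ℚ] ℝ) = A.submatrix g id := rfl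
  have hNp : N.map (aeval p : MvPolynomial ι ℚ →ₐ[ℚ] ℝ) = B.submatrix g id := rfl
  have hli' : LinearIndependent ℝ (A.submatrix g id).row := by
    have : (A.submatrix g id).row = f := by
      funext i
      rw [← hg i]; rfl
    rw [this]; exact hli
  have hrank : (A.submatrix g id).rank
      = Module.finrank ℝ (Submodule.span ℝ (Set.range A.row)) := by
    rw [LinearIndependent.rank_matrix hli']; simp
  have hdetq : ((A.submatrix g id) * (A.submatrix g id).transpose).det ≠ 0 := by
    have h1 : ((A.submatrix g id) * (A.submatrix g id).transpose).rank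
        = Fintype.card (Fin (Module.finrank ℝ (Submodule.span ℝ (Set.range A.row)))) := by
      rw [Matrix.rank_self_mul_transpose, hrank]; simp
    intro h0
    have h2 : LinearIndependent ℝ ((A.submatrix g id) * (A.submatrix g id).transpose).row := by
      rw [linearIndependent_iff_card_eq_finrank_span]
      rw [← h1, Matrix.rank_eq_finrank_span_row]
      rfl
    have h3 : IsUnit ((A.submatrix g id) * (A.submatrix g id).transpose) :=
      Matrix.linearIndependent_rows_iff_isUnit.mp h2
    have h4 := (Matrix.isUnit_iff_isUnit_det _).mp h3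
    rw [h0] at h4
    exact not_isUnit_zero h4
  have hdetP : (N * N.transpose).det ≠ 0 := by
    intro h0
    apply hdetq
    rw [← hNq]
    have : (N.map (aeval q : MvPolynomial ι ℚ →ₐ[ℚ] ℝ)) *
        (N.map (aeval q : MvPolynomial ι ℚ →ₐ[ℚ] ℝ)).transpose
        = (aeval q : MvPolynomial ι ℚ →ₐ[ℚ] ℝ).toRingHom.mapMatrix (N * N.transpose) := by
      rw [← Matrix.transpose_map, ← Matrix.map_mul]; rfl
    rw [this, ← RingHom.map_det, h0, map_zero]
  have hdetp : ((B.submatrix g id) * (B.submatrix g id).transpose).det ≠ 0 := by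
    rw [← hNp]
    have : (N.map (aeval p : MvPolynomial ι ℚ →ₐ[ℚ] ℝ)) *
        (N.map (aeval p : MvPolynomial ι ℚ →ₐ[ℚ] ℝ)).transpose
        = (aeval p : MvPolynomial ι ℚ →ₐ[ℚ] ℝ).toRingHom.mapMatrix (N * N.transpose) := by
      rw [← Matrix.transpose_map, ← Matrix.map_mul]; rfl
    rw [this, ← RingHom.map_det]
    intro h0
    apply hdetP
    apply hp
    rw [map_zero]
    exact h0
  have hBr : (B.submatrix g id).rank
      = Module.finrank ℝ (Submodule.span ℝ (Set.range A.row)) := by
    have := Matrix.rank_of_det_ne_zero hdetp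
    rw [Matrix.rank_self_mul_transpose] at this
    simpa using this
  calc A.rank = (B.submatrix g id).rank := by rw [hr, hBr]
    _ ≤ B.rank := by
      exact Matrix.rank_submatrix_le B g id

/-- The rank of a polynomial matrix is the same at all generic points. -/
lemma rank_eq_of_generic {ι m n : Type*} [Fintype m] [Fintype n]
    (M : Matrix m n (MvPolynomial ι ℚ)) {p q : ι → ℝ}
    (hp : AlgebraicIndependent ℚ p) (hq : AlgebraicIndependent ℚ q) :
    (M.map (aeval q : MvPolynomial ι ℚ →ₐ[ℚ] ℝ)).rank =
      (M.map (aeval p : MvPolynomial ι ℚ →ₐ[ℚ] ℝ)).rank :=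
  le_antisymm (rank_le_of_generic M q hp) (rank_le_of_generic M p hq)

end Run7.h316
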