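import Mathlib
import Pool.Agent.Run7.h316.DualLift
import Pool.Agent.Run7.h316.GenericRank

/-!
Equilibrium stresses of a generic framework are stresses of every equivalent framework.
-/

namespace Run7.h316

open MvPolynomial

variable {V κ : Type*} [Fintype V] [Fintype κ]

open Classical in
/-- polynomial rigidity matrix, rows indexed by ordered pairs -/
noncomputable def polyMat (κ : Type*) (G : SimpleGraph V) :
    Matrix (V × V) (V × κ) (MvPolynomial (V × κ) ℚ) :=
  fun e i => if G.Adj e.1 e.2 then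
    (X (e.1, i.2) - X (e.2, i.2)) * ((if i.1 = e.1 then 1 else 0) - (if i.1 = e.2 then 1 else 0))
    else 0

open Classical in
/-- real rigidity matrix, rows indexed by ordered pairs -/
noncomputable def rigMat (G : SimpleGraph V) (P : V → κ → ℝ) : Matrix (V × V) (V × κ) ℝ :=
  fun e i => if G.Adj e.1 e.2 then
    (P e.1 i.2 - P e.2 i.2) * ((if i.1 = e.1 then 1 else 0) - (if i.1 = e.2 then 1 else 0))
    else 0

omit [Fintype V] [Fintype κ] in
lemma polyMat_map (G : SimpleGraph V) (P : V → κ → ℝ) :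
    (polyMat κ G).map (aeval (fun i : V × κ => P i.1 i.2) : MvPolynomial (V × κ) ℚ →ₐ[ℚ] ℝ)
      = rigMat G P := by
  ext e i
  simp only [polyMat, rigMat, Matrix.map_apply]
  split_ifs <;> simp

open Classical in
lemma rigMat_mulVec (G : SimpleGraph V) (P : V → κ → ℝ) (c : V × κ → ℝ) (e : V × V) :
    (rigMat G P).mulVec c e =
      if G.Adj e.1 e.2 then ∑ a, (P e.1 a - P e.2 a) * (c (e.1, a) - c (e.2, a)) else 0 := by
  simp only [Matrix.mulVec, dotProduct, rigMat]
  split_ifs with h
  · rw [Fintype.sum_prod_type, Finset.sum_comm]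
    refine Finset.sum_congr rfl fun a _ => ?_
    simp only [mul_sub, sub_mul, mul_ite, ite_mul, mul_one, mul_zero, zero_mul]
    simp only [Finset.sum_sub_distrib, Finset.sum_ite_eq', Finset.mem_univ, if_true]
  · simp

/-- the range of the rigidity matrix at a generic point is contained in that at any
equivalent point -/
lemma range_le_range (G : SimpleGraph V) {P Q : V → κ → ℝ}
    (hP : AlgebraicIndependent ℚ (fun i : V × κ => P i.1 i.2))
    (hPQ : ∀ x y, G.Adj x y → ∑ a, (P x a - P y a) ^ 2 = ∑ a, (Q x a - Q y a) ^ 2) :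
    LinearMap.range (rigMat G P).mulVecLin ≤ LinearMap.range (rigMat G Q).mulVecLin := by
  classical
  rintro _ ⟨c, rfl⟩
  obtain ⟨D, hadd, hmul, hD⟩ := exists_derivation hP c
  have hD0 : D 0 = 0 := by
    have := hadd 0 0
    simpa using this
  have hsub : ∀ a b, D (a - b) = D a - D b := by
    intro a b
    have := hadd (a - b) b
    rw [sub_add_cancel] at this
    linarith
  have hsq : ∀ a, D (a ^ 2) = 2 * a * D a := by
    intro a
    rw [sq, hmul]; ring
  have hsum : ∀ (s : Finset κ) (f : κ → ℝ), D (∑ a ∈ s, f a) = ∑ a ∈ s, D (f a) := by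
    intro s f
    induction s using Finset.induction_on with
    | empty => simp [hD0]
    | insert a s ha ih => rw [Finset.sum_insert ha, Finset.sum_insert ha, hadd, ih]
  refine ⟨fun i => D (Q i.1 i.2), ?_⟩
  ext e
  rw [Matrix.mulVecLin_apply, Matrix.mulVecLin_apply, rigMat_mulVec, rigMat_mulVec]
  split_ifs with h
  · have h1 := congrArg D (hPQ e.1 e.2 h)
    rw [hsum, hsum] at h1
    simp only [hsq, hsub] at h1
    have h2 : ∀ x a, D (P x a) = c (x, a) := fun x a => hD (x, a)
    simp only [h2] at h1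
    have h3 : ∀ (R : V → κ → ℝ) (f g : κ → ℝ),
        ∑ a, 2 * (R e.1 a - R e.2 a) * (f a - g a)
          = 2 * ∑ a, (R e.1 a - R e.2 a) * (f a - g a) := by
      intro R f g
      rw [Finset.mul_sum]
      exact Finset.sum_congr rfl fun a _ => by ring
    rw [h3 P (fun a => c (e.1, a)) (fun a => c (e.2, a)),
      h3 Q (fun a => D (Q e.1 a)) (fun a => D (Q e.2 a))] at h1
    linarith
  · rfl

/-- the range of the rigidity matrix at a generic point equals that at any equivalent point -/
lemma range_eq_range (G : SimpleGraph V) {P Q : V → κ → ℝ}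
    (hP : AlgebraicIndependent ℚ (fun i : V × κ => P i.1 i.2))
    (hPQ : ∀ x y, G.Adj x y → ∑ a, (P x a - P y a) ^ 2 = ∑ a, (Q x a - Q y a) ^ 2) :
    LinearMap.range (rigMat G P).mulVecLin = LinearMap.range (rigMat G Q).mulVecLin := by
  apply Submodule.eq_of_le_of_finrank_le (range_le_range G hP hPQ)
  have h := rank_le_of_generic (polyMat κ G) (fun i : V × κ => Q i.1 i.2) hP
  rw [polyMat_map, polyMat_map] at h
  exact h

/-- `w` is an equilibrium stress for the coordinate vector `c`. -/
def Equilib (w : V → V → ℝ) (c : V → ℝ) : Prop := ∀ x, ∑ y, w x y * (c x - c y) = 0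

lemma dot_rigMat (G : SimpleGraph V) (P : V → κ → ℝ) (c : V × κ → ℝ) (w : V → V → ℝ)
    (hsymm : ∀ x y, w x y = w y x) (hsupp : ∀ x y, ¬ G.Adj x y → w x y = 0) :
    ∑ e : V × V, w e.1 e.2 * (rigMat G P).mulVec c e
      = 2 * ∑ a, ∑ x, c (x, a) * ∑ y, w x y * (P x a - P y a) := by
  classical
  have h1 : ∀ e : V × V, w e.1 e.2 * (rigMat G P).mulVec c e
      = ∑ a, (w e.1 e.2 * ((P e.1 a - P e.2 a) * (c (e.1, a) - c (e.2, a)))) := by
    intro e
    rw [rigMat_mulVec]
    split_ifs with h
    · rw [Finset.mul_sum]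
    · rw [hsupp _ _ h]; simp
  simp only [h1]
  rw [Finset.sum_comm, Finset.mul_sum]
  refine Finset.sum_congr rfl fun a _ => ?_
  rw [Fintype.sum_prod_type]
  have h2 : ∀ x y, w x y * ((P x a - P y a) * (c (x, a) - c (y, a)))
      = c (x, a) * (w x y * (P x a - P y a)) + c (y, a) * (w y x * (P y a - P x a)) := by
    intro x y
    rw [hsymm y x]; ring
  simp only [h2, Finset.sum_add_distrib]
  rw [Finset.sum_comm (f := fun x y => c (y, a) * (w y x * (P y a - P x a)))]
  simp only [← Finset.mul_sum]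
  ring

/-- **Stress transfer.** An equilibrium stress of a generic framework is an equilibrium stress
of every equivalent framework. -/
lemma stress_transfer (G : SimpleGraph V) {P Q : V → κ → ℝ}
    (hP : AlgebraicIndependent ℚ (fun i : V × κ => P i.1 i.2))
    (hPQ : ∀ x y, G.Adj x y → ∑ a, (P x a - P y a) ^ 2 = ∑ a, (Q x a - Q y a) ^ 2)
    (w : V → V → ℝ) (hsymm : ∀ x y, w x y = w y x) (hsupp : ∀ x y, ¬ G.Adj x y → w x y = 0)
    (hw : ∀ a, Equilib w (fun x => P x a)) (a : κ) : Equilib w (fun x => Q x a) := by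
  classical
  intro z
  let c : V × κ → ℝ := fun i => if i.1 = z ∧ i.2 = a then 1 else 0
  have hmem : (rigMat G Q).mulVecLin c ∈ LinearMap.range (rigMat G P).mulVecLin := by
    rw [range_eq_range G hP hPQ]; exact ⟨c, rfl⟩
  obtain ⟨c', hc'⟩ := hmem
  have h1 : ∑ e : V × V, w e.1 e.2 * (rigMat G Q).mulVec c e = 0 := by
    have h2 : ∀ e, (rigMat G Q).mulVec c e = (rigMat G P).mulVec c' e := by
      intro e
      exact (congrFun hc' e).symm
    simp only [h2]
    rw [dot_rigMat G P c' w hsymm hsupp]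
    have : ∀ b x, ∑ y, w x y * (P x b - P y b) = 0 := fun b x => hw b x
    simp [this]
  rw [dot_rigMat G Q c w hsymm hsupp] at h1
  have h3 : ∑ b, ∑ x, c (x, b) * ∑ y, w x y * (Q x b - Q y b)
      = ∑ y, w z y * (Q z a - Q y a) := by
    rw [Finset.sum_eq_single a, Finset.sum_eq_single z]
    · simp [c]
    · intro x _ hx; simp [c, hx]
    · simp
    · intro b _ hb; simp [c, hb]
    · simp
  rw [h3] at h1
  have : (2 : ℝ) ≠ 0 := two_ne_zero
  exact (mul_eq_zero.mp h1).resolve_left this

end Run7.h316
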