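import Mathlib
import Pool.Agent.Run7.h316.StressTransfer
import Pool.Agent.Run7.h316.GenericExt

/-!
Linked in `ℝ^(d+1)` implies globally linked in `ℝ^d`.
-/

namespace Run7.h316

open MvPolynomial

variable {V : Type*} [Fintype V]

/-- graph Laplacian type operator of a weight -/
def lap (w : V → V → ℝ) (c : V → ℝ) (x : V) : ℝ := ∑ y, w x y * (c x - c y)

open Classical in
/-- Laplacian of the single edge `uv` -/
noncomputable def edgeLap (u v : V) (c : V → ℝ) (x : V) : ℝ :=
  (if x = u then c u - c v else 0) + (if x = v then c v - c u else 0)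

lemma lap_symm (w : V → V → ℝ) (hw : ∀ x y, w x y = w y x) (c e : V → ℝ) :
    ∑ x, e x * lap w c x = ∑ x, c x * lap w e x := by
  have h1 : ∀ f g : V → ℝ, ∑ x, f x * lap w g x
      = (1 / 2) * ∑ x, ∑ y, w x y * ((f x - f y) * (g x - g y)) := by
    intro f g
    have h2 : ∑ x, f x * lap w g x = ∑ x, ∑ y, w x y * (f x * (g x - g y)) := by
      refine Finset.sum_congr rfl fun x _ => ?_
      rw [lap, Finset.mul_sum]
      exact Finset.sum_congr rfl fun y _ => by ring
    have h3 : ∑ x, ∑ y, w x y * (f x * (g x - g y))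
        = ∑ x, ∑ y, w x y * (f y * (g y - g x)) := by
      rw [Finset.sum_comm]
      refine Finset.sum_congr rfl fun x _ => Finset.sum_congr rfl fun y _ => ?_
      rw [hw y x]
    have h4 : ∑ x, ∑ y, w x y * ((f x - f y) * (g x - g y))
        = ∑ x, ∑ y, w x y * (f x * (g x - g y)) + ∑ x, ∑ y, w x y * (f y * (g y - g x)) := by
      rw [← Finset.sum_add_distrib]
      refine Finset.sum_congr rfl fun x _ => ?_
      rw [← Finset.sum_add_distrib]
      exact Finset.sum_congr rfl fun y _ => by ring
    rw [h4, ← h3, h2]; ring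
  rw [h1, h1]
  congr 1
  refine Finset.sum_congr rfl fun x _ => Finset.sum_congr rfl fun y _ => ?_
  ring

lemma lap_quad (w : V → V → ℝ) (hw : ∀ x y, w x y = w y x) (c : V → ℝ) :
    ∑ x, c x * lap w c x = (1 / 2) * ∑ x, ∑ y, w x y * (c x - c y) ^ 2 := by
  have h2 : ∑ x, c x * lap w c x = ∑ x, ∑ y, w x y * (c x * (c x - c y)) := by
    refine Finset.sum_congr rfl fun x _ => ?_
    rw [lap, Finset.mul_sum]
    exact Finset.sum_congr rfl fun y _ => by ring
  have h3 : ∑ x, ∑ y, w x y * (c x * (c x - c y))
      = ∑ x, ∑ y, w x y * (c y * (c y - c x)) := by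
    rw [Finset.sum_comm]
    refine Finset.sum_congr rfl fun x _ => Finset.sum_congr rfl fun y _ => ?_
    rw [hw y x]
  have h4 : ∑ x, ∑ y, w x y * (c x - c y) ^ 2
      = ∑ x, ∑ y, w x y * (c x * (c x - c y)) + ∑ x, ∑ y, w x y * (c y * (c y - c x)) := by
    rw [← Finset.sum_add_distrib]
    refine Finset.sum_congr rfl fun x _ => ?_
    rw [← Finset.sum_add_distrib]
    exact Finset.sum_congr rfl fun y _ => by ring
  rw [h4, ← h3, h2]; ring

lemma edgeLap_symm (u v : V) (c e : V → ℝ) :
    ∑ x, e x * edgeLap u v c x = ∑ x, c x * edgeLap u v e x := by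
  classical
  simp only [edgeLap, mul_add, Finset.sum_add_distrib, mul_ite, mul_zero, Finset.sum_ite_eq',
    Finset.mem_univ, if_true]
  ring

lemma edgeLap_quad (u v : V) (c : V → ℝ) :
    ∑ x, c x * edgeLap u v c x = (c u - c v) ^ 2 := by
  classical
  simp only [edgeLap, mul_add, Finset.sum_add_distrib, mul_ite, mul_zero, Finset.sum_ite_eq',
    Finset.mem_univ, if_true]
  ring

/-- The core argument: if `w h` expresses the row of `uv` at `(h, p)` for all generic
extensions `(h, p)` of `p`, then the pair `u, v` has the same length in every framework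
equivalent to the generic `p`. -/
lemma core {κ : Type*} [Fintype κ] (G : SimpleGraph V) (u v : V) {p q : V → κ → ℝ}
    (hp : AlgebraicIndependent ℚ (fun i : V × κ => p i.1 i.2))
    (hpq : ∀ x y, G.Adj x y → ∑ a, (p x a - p y a) ^ 2 = ∑ a, (q x a - q y a) ^ 2)
    (H : ∀ h : V → ℝ, AlgebraicIndependent ℚ (Sum.elim h (fun i : V × κ => p i.1 i.2)) →
      ∃ w : V → V → ℝ, (∀ x y, w x y = w y x) ∧ (∀ x y, ¬ G.Adj x y → w x y = 0) ∧
        (∀ x, lap w h x = edgeLap u v h x) ∧
        (∀ a x, lap w (fun y => p y a) x = edgeLap u v (fun y => p y a) x)) :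
    ∑ a, (p u a - p v a) ^ 2 = ∑ a, (q u a - q v a) ^ 2 := by
  classical
  obtain ⟨h0, hh0, -⟩ := exists_generic_extension (V := V) (fun i : V × κ => p i.1 i.2) hp 0
  obtain ⟨w0, hw0s, hw0G, -, hw0p⟩ := H h0 hh0
  -- the defect vanishes
  have key : ∀ a x, lap w0 (fun y => q y a) x = edgeLap u v (fun y => q y a) x := by
    intro a
    let z : V → ℝ := fun x => lap w0 (fun y => q y a) x - edgeLap u v (fun y => q y a) x
    obtain ⟨h, hh, hz⟩ := exists_generic_extension (V := V) (fun i : V × κ => p i.1 i.2) hp z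
    obtain ⟨w, hws, hwG, hwh, hwp⟩ := H h hh
    -- the difference is a stress of `(G,p)`
    have hstress : ∀ b, Equilib (fun x y => w x y - w0 x y) (fun x => p x b) := by
      intro b x
      have h1 := hwp b x
      have h2 := hw0p b x
      have h3 : ∑ y, (w x y - w0 x y) * (p x b - p y b)
          = lap w (fun y => p y b) x - lap w0 (fun y => p y b) x := by
        simp only [lap, ← Finset.sum_sub_distrib]
        exact Finset.sum_congr rfl fun y _ => by ring
      rw [h3, h1, h2, sub_self]
    have htr := stress_transfer G hp hpq (fun x y => w x y - w0 x y)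
      (fun x y => by rw [hws x y, hw0s x y]) (fun x y hxy => by rw [hwG x y hxy, hw0G x y hxy]; simp)
      hstress a
    have hdiff : ∀ x, lap w (fun y => q y a) x = lap w0 (fun y => q y a) x := by
      intro x
      have h1 := htr x
      have h3 : ∑ y, (w x y - w0 x y) * (q x a - q y a)
          = lap w (fun y => q y a) x - lap w0 (fun y => q y a) x := by
        simp only [lap, ← Finset.sum_sub_distrib]
        exact Finset.sum_congr rfl fun y _ => by ring
      rw [h3] at h1
      linarith
    have hzh : ∑ x, z x * h x = 0 := by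
      have h1 : ∑ x, z x * h x
          = ∑ x, h x * lap w (fun y => q y a) x - ∑ x, h x * edgeLap u v (fun y => q y a) x := by
        rw [← Finset.sum_sub_distrib]
        refine Finset.sum_congr rfl fun x _ => ?_
        simp only [z]
        rw [hdiff x]; ring
      rw [h1, lap_symm w hws, edgeLap_symm]
      simp only [hwh, sub_self]
    have hz0 := hz hzh
    intro x
    have := congrFun hz0 x
    simp only [z, Pi.zero_apply] at this
    linarith
  have hlen : ∀ r : V → κ → ℝ,
      (∀ a x, lap w0 (fun y => r y a) x = edgeLap u v (fun y => r y a) x) →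
      ∑ a, (r u a - r v a) ^ 2 = (1 / 2) * ∑ x, ∑ y, w0 x y * ∑ a, (r x a - r y a) ^ 2 := by
    intro r hr
    have h1 : ∀ a, (r u a - r v a) ^ 2
        = (1 / 2) * ∑ x, ∑ y, w0 x y * (r x a - r y a) ^ 2 := by
      intro a
      have h2 := edgeLap_quad u v (fun y => r y a)
      have h3 := lap_quad w0 hw0s (fun y => r y a)

      rw [← h2, ← h3]
      exact Finset.sum_congr rfl fun x _ => by rw [hr a x]
    simp only [h1]
    rw [← Finset.mul_sum, Finset.sum_comm]
    congr 1
    refine Finset.sum_congr rfl fun x _ => ?_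
    rw [Finset.sum_comm]
    refine Finset.sum_congr rfl fun y _ => ?_
    rw [Finset.mul_sum]
  rw [hlen p hw0p, hlen q key]
  congr 1
  refine Finset.sum_congr rfl fun x _ => Finset.sum_congr rfl fun y _ => ?_
  by_cases hxy : G.Adj x y
  · rw [hpq x y hxy]
  · rw [hw0G x y hxy]; simp

end Run7.h316
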