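import Mathlib
import Pool.Agent.Run7.h316.LinkedCore

/-!
From the rank formulation of linked pairs to weights.
-/

namespace Run7.h316

open MvPolynomial

variable {V : Type*}

/-- The row of the pair `xy` in the rigidity matrix of `P`: `P x - P y` in the columns of `x`,
`P y - P x` in the columns of `y`, zeros elsewhere. -/
noncomputable def rowVec {κ : Type*} (P : V → κ → ℝ) (x y : V) : V × κ → ℝ := by
  classical
  exact fun i => (if i.1 = x then P x i.2 - P y i.2 else 0)
    + (if i.1 = y then P y i.2 - P x i.2 else 0)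

/-- The rows of the rigidity matrix of `(G, P)`. -/
def rowSet {κ : Type*} (G : SimpleGraph V) (P : V → κ → ℝ) : Set (V × κ → ℝ) :=
  {r | ∃ x y, G.Adj x y ∧ r = rowVec P x y}

/-- Elements of the row space are given by symmetric weights on the edges. -/
lemma exists_weight_of_mem_span [Fintype V] {κ : Type*} (G : SimpleGraph V) (P : V → κ → ℝ)
    {r : V × κ → ℝ} (hr : r ∈ Submodule.span ℝ (rowSet G P)) :
    ∃ w : V → V → ℝ, (∀ x y, w x y = w y x) ∧ (∀ x y, ¬ G.Adj x y → w x y = 0) ∧
      ∀ a x, lap w (fun y => P y a) x = r (x, a) := by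
  classical
  induction hr using Submodule.span_induction with
  | mem r hr =>
    obtain ⟨x0, y0, hadj, rfl⟩ := hr
    have hne : x0 ≠ y0 := hadj.ne
    refine ⟨fun x y => (if x = x0 ∧ y = y0 then 1 else 0) + (if x = y0 ∧ y = x0 then 1 else 0),
      ?_, ?_, ?_⟩
    · intro x y
      beta_reduce
      rw [add_comm]
      congr 1
      · exact if_congr (and_comm) rfl rfl
      · exact if_congr (and_comm) rfl rfl
    · intro x y hxy
      beta_reduce
      rw [if_neg, if_neg, add_zero]
      · rintro ⟨rfl, rfl⟩; exact hxy hadj.symm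
      · rintro ⟨rfl, rfl⟩; exact hxy hadj
    · intro a x
      simp only [lap, add_mul, Finset.sum_add_distrib, rowVec]
      congr 1
      · by_cases hx : x = x0
        · subst hx; simp
        · simp [hx]
      · by_cases hx : x = y0
        · subst hx; simp
        · simp [hx]
  | zero =>
    exact ⟨fun _ _ => 0, by simp, by simp, by intro a x; simp [lap]⟩
  | add r s _ _ ihr ihs =>
    obtain ⟨w1, h1, h2, h3⟩ := ihr
    obtain ⟨w2, k1, k2, k3⟩ := ihs
    refine ⟨fun x y => w1 x y + w2 x y, ?_, ?_, ?_⟩
    · intro x y; beta_reduce; rw [h1 x y, k1 x y]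
    · intro x y hxy; beta_reduce; rw [h2 x y hxy, k2 x y hxy, add_zero]
    · intro a x
      have := h3 a x
      have := k3 a x
      simp only [lap] at *
      simp only [add_mul, Finset.sum_add_distrib, Pi.add_apply]
      linarith
  | smul t r _ ih =>
    obtain ⟨w1, h1, h2, h3⟩ := ih
    refine ⟨fun x y => t * w1 x y, ?_, ?_, ?_⟩
    · intro x y; beta_reduce; rw [h1 x y]
    · intro x y hxy; beta_reduce; rw [h2 x y hxy, mul_zero]
    · intro a x
      have := h3 a x
      simp only [lap] at *
      simp only [Pi.smul_apply, smul_eq_mul]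
      rw [← this, Finset.mul_sum]
      exact Finset.sum_congr rfl fun y _ => by ring

lemma span_rowSet_eq [Fintype V] {κ : Type*} [Fintype κ] (G : SimpleGraph V) (P : V → κ → ℝ) :
    Submodule.span ℝ (rowSet G P) = Submodule.span ℝ (Set.range (rigMat G P).row) := by
  classical
  have hrow : ∀ x y, G.Adj x y → (rigMat G P).row (x, y) = rowVec P x y := by
    intro x y hxy
    have hne : x ≠ y := hxy.ne
    funext i
    simp only [Matrix.row_apply, rigMat, hxy, if_true, rowVec]
    by_cases h1 : i.1 = x
    · have h2 : i.1 ≠ y := by rw [h1]; exact hne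
      simp [h1, hne]
    · by_cases h2 : i.1 = y
      · simp [h2, hne.symm]
      · simp [h1, h2]
  apply le_antisymm
  · rw [Submodule.span_le]
    rintro _ ⟨x, y, hxy, rfl⟩
    exact Submodule.subset_span ⟨(x, y), hrow x y hxy⟩
  · rw [Submodule.span_le]
    rintro _ ⟨⟨x, y⟩, rfl⟩
    by_cases hxy : G.Adj x y
    · rw [hrow x y hxy]
      exact Submodule.subset_span ⟨x, y, hxy, rfl⟩
    · have : (rigMat G P).row (x, y) = 0 := by
        funext i
        simp [Matrix.row_apply, rigMat, hxy]
      rw [this]
      exact Submodule.zero_mem _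

lemma finrank_span_rowSet [Fintype V] {κ : Type*} [Fintype κ] (G : SimpleGraph V)
    (P : V → κ → ℝ) :
    Module.finrank ℝ (Submodule.span ℝ (rowSet G P)) = (rigMat G P).rank := by
  rw [span_rowSet_eq, Matrix.rank_eq_finrank_span_row]

/-- the rank of the rigidity matrix is the same for all generic realizations -/
lemma finrank_generic [Fintype V] {κ : Type*} [Fintype κ] (G : SimpleGraph V)
    {P Q : V → κ → ℝ} (hP : AlgebraicIndependent ℚ (fun i : V × κ => P i.1 i.2))
    (hQ : AlgebraicIndependent ℚ (fun i : V × κ => Q i.1 i.2)) :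
    Module.finrank ℝ (Submodule.span ℝ (rowSet G P)) =
      Module.finrank ℝ (Submodule.span ℝ (rowSet G Q)) := by
  rw [finrank_span_rowSet, finrank_span_rowSet]
  have h := rank_eq_of_generic (polyMat κ G) hQ hP
  rw [polyMat_map, polyMat_map] at h
  exact h

/-- **Main theorem in coordinates.** -/
theorem linked_globallyLinked [Fintype V] {d : ℕ} (G : SimpleGraph V) (u v : V)
    {P : V → Fin (d + 1) → ℝ}
    (hP : AlgebraicIndependent ℚ (fun i : V × Fin (d + 1) => P i.1 i.2))
    (hlink : Module.finrank ℝ (Submodule.span ℝ (rowSet (G ⊔ SimpleGraph.edge u v) P)) =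
      Module.finrank ℝ (Submodule.span ℝ (rowSet G P)))
    {p q : V → Fin d → ℝ}
    (hp : AlgebraicIndependent ℚ (fun i : V × Fin d => p i.1 i.2))
    (hpq : ∀ x y, G.Adj x y → ∑ a, (p x a - p y a) ^ 2 = ∑ a, (q x a - q y a) ^ 2) :
    ∑ a, (p u a - p v a) ^ 2 = ∑ a, (q u a - q v a) ^ 2 := by
  classical
  by_cases huv : u = v
  · subst huv; simp
  refine core G u v hp hpq ?_
  intro h hh
  -- the generic realization `(h, p)` in dimension `d + 1`
  let R : V → Fin (d + 1) → ℝ := fun x => Fin.cons (h x) (p x)
  have hR : AlgebraicIndependent ℚ (fun i : V × Fin (d + 1) => R i.1 i.2) := by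
    let e : V × Fin (d + 1) → V ⊕ (V × Fin d) := fun i =>
      Fin.cases (motive := fun _ => V ⊕ (V × Fin d)) (Sum.inl i.1) (fun a => Sum.inr (i.1, a)) i.2
    have he : Function.Injective e := by
      rintro ⟨x, a⟩ ⟨y, b⟩ hab
      induction a using Fin.cases with
      | zero =>
        induction b using Fin.cases with
        | zero =>
          simp only [e, Fin.cases_zero, Sum.inl.injEq] at hab
          rw [hab]
        | succ b => simp [e] at hab
      | succ a =>
        induction b using Fin.cases with
        | zero => simp [e] at hab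
        | succ b =>
          simp only [e, Fin.cases_succ, Sum.inr.injEq, Prod.mk.injEq] at hab
          rw [hab.1, hab.2]
    have h1 := hh.comp e he
    convert h1 using 1
    funext i
    obtain ⟨x, a⟩ := i
    induction a using Fin.cases with
    | zero => simp [R, e]
    | succ a => simp [R, e]
  -- transfer the rank equality to `R`
  have h1 := finrank_generic G hP hR
  have h2 := finrank_generic (G ⊔ SimpleGraph.edge u v) hP hR
  have hle : Submodule.span ℝ (rowSet G R) ≤
      Submodule.span ℝ (rowSet (G ⊔ SimpleGraph.edge u v) R) := by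
    apply Submodule.span_mono
    rintro _ ⟨x, y, hxy, rfl⟩
    exact ⟨x, y, Or.inl hxy, rfl⟩
  have heq : Submodule.span ℝ (rowSet G R) =
      Submodule.span ℝ (rowSet (G ⊔ SimpleGraph.edge u v) R) := by
    apply Submodule.eq_of_le_of_finrank_eq hle
    rw [← h1, ← h2, hlink]
  have hmem : rowVec R u v ∈ Submodule.span ℝ (rowSet G R) := by
    rw [heq]
    refine Submodule.subset_span ⟨u, v, Or.inr ?_, rfl⟩
    rw [SimpleGraph.edge_adj]
    exact ⟨Or.inl ⟨rfl, rfl⟩, huv⟩
  obtain ⟨w, hws, hwG, hw⟩ := exists_weight_of_mem_span G R hmem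
  refine ⟨w, hws, hwG, ?_, ?_⟩
  · intro x
    have := hw 0 x
    simpa [R, rowVec, edgeLap] using this
  · intro a x
    have := hw a.succ x
    simpa [R, rowVec, edgeLap] using this

end Run7.h316
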